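import Pool.Agent.Lib.LF.All

open scoped Manifold ContDiff

namespace Pool.Agent.Results.MP_996b85_ag.LagrangianFibration

open Pool.Agent.Lib.SV Pool.Agent.Lib.HS Pool.Agent.Lib.GH Pool.Agent.Lib.LF

theorem result (j k ρ r : ℕ) (X : Type) [TopologicalSpace X] [ChartedSpace (E ((j + k) * 2)) X]
    [IsManifold 𝓘(ℂ, E ((j + k) * 2)) ω X] [CompactSpace X] [T2Space X] [ConnectedSpace X]
    (y : X → E (ρ + (j + k) * 2 + 1)) (p : X → E (j + k + 1)) (S g : X → Mat ((j + k) * 2))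
    (x : Fin r → X) (B : Fin r → Set (E ((j + k) * 2)))
    (hy : Emb ((j + k) * 2) ρ y) (hp : Mor y p) (hS : Sympl y S) (hL : Lagr S p)
    (hg : Kaehler g) (hB : Cells x B) (h1 : chern j g (fsm ((j + k) * 2) p) x B ≠ 0)
    (h2 : DimLt id {b | ∀ z (a : ℂ), b = a • p z → ¬Subm ((j + k) * 2) p z} j) :
    ∃ Y Z : Set X, Closed y Y ∧ Irred y Y ∧ DimLt y Y (j * 2 + k + 1) ∧ ¬DimLt y Y (j * 2 + k) ∧
      Closed y Z ∧ DimLt y Z (j * 2 + 1) ∧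
      ∀ z ∈ Y, ∃ c : X →₀ ℤ, (∀ w ∈ c.support, w ∈ Z) ∧ Finsupp.single z 1 - c ∈ RatTriv y :=
  final bBR1 bBR2 aBR3 aMAIN j k ((j + k) * 2) ρ r X y p S g x B hy hp hS hL hg hB h1 h2

end Pool.Agent.Results.MP_996b85_ag.LagrangianFibration
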